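import Pool.Agent.H201.SK.Final

/-!
# The Skolem Problem is decidable if boundedly many guesses suffice for most inputs

A zero of a linear recurrence sequence is *isolated* if it lies in no infinite arithmetic progression of
zeros. The number of the isolated zeros is finite (Skolem, Mahler, Lech) and bounded by a computable function
`c(p)` of the input `p`. So there is a trivial algorithm which, for each input, approximates an upper bound
for the isolated zeros (in the course of time) and changes its mind at most `c(p)` times: it gives the largest
isolated zero which has been found so far.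

**Theorem.** The following are equivalent:

* the Skolem Problem is decidable (Q1);
* an upper bound for the isolated zeros can be computed from the input;
* there is a partial algorithm which gives, for most inputs, at most `k` numbers (it is not known which one is
  right, and how many will appear) one of which is an upper bound for the isolated zeros;
* there is an algorithm which, for most inputs, approximates an upper bound for the isolated zeros and changes
  its mind at most `k` times.

Here `k` is any constant, and `for most inputs` means: among the about `(2 H + 1) ^ (2 n)` inputs of order `n`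
with entries in `[-H, H]` there are at most `K(n) (H + 1) ^ (n - g(n))` exceptions, for all `(n, H)` in a
decidable set in which there are arbitrarily large `n` with arbitrarily large `g(n)` and with infinitely many
`H`; `K` is any computable function and `g` any unbounded computable function, for instance `log log n`.
Nothing is assumed on the algorithms for the exceptions, and nothing is assumed for the other `n` and `H`.
The right number may depend on the input in an arbitrary way (if one of `k` algorithms were right for most
inputs of each size this would be a special case). If `k` were allowed to depend on the order `n`, then the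
trivial algorithm would do for all inputs: by a theorem of Schmidt (which is not used here) the number of the
isolated zeros is bounded by a function of the order.

Idea of the proof: the sequence `u^(0), …, u^(N)` of the first inputs can be interleaved to one input `w`
whose isolated zeros are at least as large as all those of the `u^(i)`; this needs no information on the
sequences. The sequence `w` satisfies all recurrences with characteristic polynomial `P Q`, where `P` is that
of `w`. If `n` and `H` are large then there are more such inputs of order `n` than exceptions, so that for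
more than half of them one of the guesses is right. Let `q` be the average number of the guesses which will
ever appear for these inputs, rounded to a multiple of `1/2`, and let `q*` be the upper limit of `q` for
`N → ∞`. We search for large `N` for which the average number of the guesses which have appeared so far is
`≥ q*`. For such `N` only for less than half of the inputs a further guess will ever appear. So for one of the
inputs the right guess is among those which have appeared, and the largest of these guesses is a bound for
the isolated zeros of `w`. For the equivalence of Q1 with the computation of bounds the period `T` modulo a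
prime of the sequence is used: all isolated zeros lie in residue classes modulo `T` in which the sequence does
not vanish identically; one adds to the sequence the function which is `1` on the other classes.
-/

set_option autoImplicit false

namespace Pool.Agent.Results.MP_8d13b5_lc.BoundedlyManyGuesses

/-- Q1, as in the frozen statement `S15043`. -/
def Q1 : Prop :=
  @ComputablePred (List ℤ × List ℤ)
    (@Primcodable.prod (List ℤ) (List ℤ)
      (@Primcodable.list ℤ (Primcodable.ofDenumerable ℤ))
      (@Primcodable.list ℤ (Primcodable.ofDenumerable ℤ)))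
    (fun p : List ℤ × List ℤ =>
      p.1.length = p.2.length ∧ 1 ≤ p.1.length ∧
      p.1.getD (p.1.length - 1) 0 ≠ 0 ∧
      ∃ u : ℕ → ℤ,
        (∀ i, i < p.1.length → u i = p.2.getD i 0) ∧
        (∀ n : ℕ, u (n + p.1.length) =
          ∑ j ∈ Finset.range p.1.length, p.1.getD j 0 * u (n + p.1.length - 1 - j)) ∧
        ∃ n : ℕ, u n = 0)

/-- `u` is the sequence given by the input `p = (c, a)`: the list `c` of the coefficients `c_1, ..., c_d` of
the recurrence, `d ≥ 1`, `c_d ≠ 0`, and the list `a` of the `d` initial values -/
def IsLRS (p : List ℤ × List ℤ) (u : ℕ → ℤ) : Prop :=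
  p.1.length = p.2.length ∧ 1 ≤ p.1.length ∧ p.1.getD (p.1.length - 1) 0 ≠ 0 ∧
    (∀ i, i < p.1.length → u i = p.2.getD i 0) ∧
    ∀ n : ℕ, u (n + p.1.length) =
      ∑ j ∈ Finset.range p.1.length, p.1.getD j 0 * u (n + p.1.length - 1 - j)

/-- `n` is an isolated zero of `u`: it lies in no infinite arithmetic progression of zeros -/
def Isolated (u : ℕ → ℤ) (n : ℕ) : Prop := u n = 0 ∧ ∀ b, 0 < b → ∃ l, u (n + b * l) ≠ 0

/-- all isolated zeros are at most `v` -/
def IsBound (p : List ℤ × List ℤ) (v : ℕ) : Prop := ∀ u, IsLRS p u → ∀ n, Isolated u n → n ≤ v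

/-- the inputs of order `n` with entries in `[-H, H]` -/
def Inputs (n H : ℕ) : Set (List ℤ × List ℤ) :=
  {p | p.1.length = n ∧ p.2.length = n ∧ 1 ≤ n ∧ p.1.getD (n - 1) 0 ≠ 0 ∧
    (∀ z ∈ p.1, z.natAbs ≤ H) ∧ ∀ z ∈ p.2, z.natAbs ≤ H}

/-- For all pairs `(n, H)` in a decidable set the property `P` has at most `K n (H + 1) ^ (n - g n)`
exceptions among the inputs of order `n` with entries in `[-H, H]`; in the set there are arbitrarily large
`n` with arbitrarily large `g n` and with infinitely many `H`. -/
def ForMost (P : List ℤ × List ℤ → Prop) : Prop :=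
  ∃ (K g : ℕ → ℕ) (r : ℕ × ℕ → Bool), Computable K ∧ Computable g ∧ Computable r ∧
    (∀ m, ∃ n, m ≤ n ∧ m ≤ g n ∧ ∀ B, ∃ H ≥ B, r (n, H) = true) ∧
    ∀ n H : ℕ, r (n, H) = true →
      {p | p ∈ Inputs n H ∧ ¬ P p}.encard ≤ ((K n * (H + 1) ^ (n - g n) : ℕ) : ℕ∞)

open Pool.Agent.H201.SK in
lemma isBound_iff {p : List ℤ × List ℤ} (hp : Pool.Agent.Q324.SC.Valid p) (v : ℕ) :
    IsBound p v ↔ BdI p v := by
  unfold IsBound BdI
  refine forall_congr' fun u => ⟨fun h hu => h ⟨hp.1, hp.2.1, hp.2.2, hu.1, hu.2⟩,
    fun h hu => h ⟨hu.2.2.2.1, hu.2.2.2.2⟩⟩

lemma inputs_iff (p : List ℤ × List ℤ) (n H : ℕ) : p ∈ Inputs n H ↔ p ∈ Pool.Agent.Q324.SC.Inputs n H := by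
  constructor
  · rintro ⟨rfl, h2, h3, h4, h5, h6⟩
    exact ⟨⟨h2.symm, h3, h4⟩, rfl, h5, h6⟩
  · rintro ⟨⟨h1, h2, h3⟩, rfl, h5, h6⟩
    exact ⟨rfl, h1.symm, h2, h3, h5, h6⟩

/-- **The Skolem Problem and boundedly many guesses for most inputs.** -/
theorem result : List.TFAE [
    -- the Skolem Problem is decidable
    Q1,
    -- bounds for the isolated zeros can be computed
    ∃ B : List ℤ × List ℤ → ℕ, Computable B ∧ ∀ p, IsBound p (B p),
    -- for most inputs one of at most `k` numbers, given by a partial algorithm, is a bound
    ∃ (k : ℕ) (A : ℕ × (List ℤ × List ℤ) →. ℕ), Partrec A ∧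
      ForMost fun p => ∃ i < k, ∃ v ∈ A (i, p), IsBound p v,
    -- for most inputs an algorithm approximates a bound with at most `k` changes of its mind
    ∃ (k : ℕ) (G : (List ℤ × List ℤ) × ℕ → ℕ), Computable G ∧
      ForMost fun p => ∃ s₀, (∀ s ≥ s₀, G (p, s) = G (p, s₀)) ∧
        {s | G (p, s + 1) ≠ G (p, s)}.ncard ≤ k ∧ IsBound p (G (p, s₀))] := by
  tfae_have 1 → 2 := by
    intro h
    obtain ⟨B, hB, hB2⟩ := Pool.Agent.H201.SK.bound_of_zero h
    refine ⟨B, hB, fun p u hu n hn => ?_⟩
    exact hB2 p ⟨hu.1, hu.2.1, hu.2.2.1⟩ u ⟨hu.2.2.2.1, hu.2.2.2.2⟩ n hn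
  tfae_have 2 → 4 := by
    rintro ⟨B, hB, h⟩
    refine ⟨0, fun x => B x.1, hB.comp Computable.fst, fun _ => 0, id, fun _ => true,
      Computable.const 0, Computable.id, Computable.const true,
      fun m => ⟨m, le_rfl, le_rfl, fun B => ⟨B, le_rfl, rfl⟩⟩, fun n H _ => ?_⟩
    refine le_trans (le_of_eq ?_) (zero_le)
    rw [Set.encard_eq_zero, Set.eq_empty_iff_forall_notMem]
    rintro p ⟨_, hp⟩
    exact hp ⟨0, fun _ _ => rfl, by simp, h p⟩
  tfae_have 4 → 3 := by
    rintro ⟨k, G, hG, K, g, r, hK, hg, hr, hdens, h⟩
    obtain ⟨F, hF, hF2⟩ := Pool.Agent.H201.SK.guesses_of_changes hG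
    refine ⟨k + 1, F, hF, K, g, r, hK, hg, hr, hdens, fun n H hn => le_trans ?_ (h n H hn)⟩
    refine Set.encard_le_encard fun p hp => ⟨hp.1, fun ⟨s₀, h1, h2, h3⟩ => hp.2 ?_⟩
    obtain ⟨b, hb, hb2⟩ := hF2 k p s₀ h1 h2
    exact ⟨b, hb, _, hb2, h3⟩
  tfae_have 3 → 1 := by
    rintro ⟨k, A, hA, K, g, r, hK, hg, hr, hdens, h⟩
    obtain ⟨B, hB, hB2⟩ := Pool.Agent.H201.SK.advice_guess k hA hK hg hr hdens fun n H hn => by
      refine le_trans ?_ (h n H hn)
      refine Set.encard_le_encard fun p hp => ⟨(inputs_iff p n H).2 hp.1, fun ⟨i, hi, v, hv, hb⟩ =>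
        hp.2 ⟨i, hi, v, hv, (isBound_iff hp.1.1 v).1 hb⟩⟩
    exact Pool.Agent.H201.SK.zero_of_bound hB hB2
  tfae_finish

end Pool.Agent.Results.MP_8d13b5_lc.BoundedlyManyGuesses
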