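import Mathlib
import Pool.Agent.H594.SK.Main

/-!
# The Skolem Problem in one-parameter families, with all multipliers of small height

Let `c_1, …, c_k` and `λ_1, …, λ_k` be nonzero polynomials with algebraic coefficients. We consider the
linear recurrence sequences (of order at most `k`, any `k`)

  `u_n = ∑_i w_i c_i(t) (ρ_i λ_i(t)) ^ n`,   `n ∈ ℤ`,

where `t` is an algebraic number of degree at most `d` over a number field `K`, and the numbers `w_i`
and `ρ_i` are arbitrary nonzero algebraic numbers, of any degree, the sum of the heights of which is at most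
`κ h(t)`; moreover all `w_i` and `ρ_i` may be multiplied by arbitrary units of the integral closure of
a finitely generated ring `ℤ[Γ]` of algebraic numbers. So the data of `u` are `2 k + 1` independent
parameters.

Let `α_1, …, α_M` be different algebraic numbers, `e_li` and `f_li` the orders of `c_i` and `λ_i`
at `α_l`; we suppose that for every `l` the numbers `f_l1, …, f_lk` are different. A **tie** at
`(l, n)` is a minimum of the numbers `e_li + n f_li`, `i = 1, …, k`, which is attained at least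
twice; there are no ties for `|n| > E`, `E = max |e_li - e_lj|`.

**Theorem.** Let `κ < 1 / (8 (d + 1) (E + 1))`. For all but finitely many `t` of degree at most `d`
over `K`, and for ALL `w` and `ρ` as above:

  if `u_n = 0`, `n ∈ ℤ`, then there is a tie at `(l, n)` for at least `M - 2 d` of the `l`
  (at least `M - 2 d + 1`, if `t` is an algebraic integer).

So if `M > 2 d` (or `M = 2 d` and `t` is an algebraic integer) then all zeros of all these sequences,
forwards and backwards, have an index `n` with `|n| ≤ E`: if none of the `c_i` vanishes at one of the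
`α_l` (for instance if they are constant), then `E = 0` and no term `u_n`, `n ≠ 0`, vanishes. It
follows, by Northcott's theorem, that only finitely many of the integer sequences in the family with
`w_i`, `ρ_i` of bounded degree have other zeros (part (3); the roots of an integer sequence of order `k`
have degree at most `k`), so that the Skolem Problem for the family is settled by the terms
`u_0, …, u_E` and a finite table.

For example let `K` be a Galois extension of `ℚ` of degree `k` with group `G`, `α` a primitive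
element, and `λ(t) = ∏_g (t - g α) ^ (m_g)` with different `m_g ≥ 0`; then
`u_n = Tr (w (ρ λ(t)) ^ n)`, `t ∈ ℤ`, `ρ`, `w ∈ K^*`, is a rational sequence, and if `k ≥ 2` and
`κ < 1 / 16` then for all but finitely many integers `t` no term with `n ≠ 0` vanishes for any `w`, `ρ`
with `k (h(w) + h(ρ)) ≤ κ log |t|`. (For CM fields and `m_g + m_gc = m` all the roots of the sequences with
`ρ = 1` have the same absolute value.)

Proof: by Wirsing's theorem (a theorem of the library) there are, for all but `2 d` of the `l`, places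
of `K(t)` outside of a given finite set which give a positive proportion of the height of `t - α_l`, and hence
(in every extension) places at which `w` and `ρ` are small in comparison with `t - α_l`. There the
terms with different orders `e_li + n f_li` have different absolute values, uniformly in `n`.
-/

set_option autoImplicit false

namespace Pool.Agent.Results.MP_8d13b5_lc.MultipliersOfSmallHeight

open Pool.Agent.H594.ML
open Pool.Agent.H594.BD (degLe_alg)
open Pool.Agent.Helper259.AbsHt (Qbar)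
open Pool.Agent.Y215.SK (h1)

variable {k M : ℕ}

/-- The absolute logarithmic height of an algebraic number `z`. (The image of the embedding `sg` of
an algebraic closure of `ℚ` consists of the algebraic numbers, and `h1 a` is the absolute
logarithmic height of `a`; for transcendental `z` the value has no meaning. See part (0) of the
theorem.) -/
noncomputable def ht (z : ℂ) : ℝ := h1 (Function.invFun sg z)

/-- the algebraic numbers of degree at most `d` over `K` -/
def DegLe (K : IntermediateField ℚ ℂ) (d : ℕ) : Set ℂ :=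
  {z | ∃ P : Polynomial ℂ, P ≠ 0 ∧ P.natDegree ≤ d ∧ (∀ i, P.coeff i ∈ K) ∧ P.eval z = 0}

/-- The polynomials `c_i` are not zero, have algebraic coefficients and the order `e_li` at `α_l`. -/
def HasOrders (α : Fin M → ℂ) (c : Fin k → Polynomial ℂ) (e : Fin M → Fin k → ℤ) : Prop :=
  ∀ i, c i ≠ 0 ∧ (∀ n, IsAlgebraic ℚ ((c i).coeff n)) ∧
    ∀ l, ((c i).rootMultiplicity (α l) : ℤ) = e l i

/-- The minimum of the numbers `e_i + n f_i` is attained at least twice. -/
def Tie (e f : Fin k → ℤ) (n : ℤ) : Prop :=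
  ∃ i j, i ≠ j ∧ e i + n * f i = e j + n * f j ∧ ∀ p, e i + n * f i ≤ e p + n * f p

/-- the number of the `l` for which there is a tie -/
noncomputable def ties (e f : Fin M → Fin k → ℤ) (n : ℤ) : ℕ := {l | Tie (e l) (f l) n}.ncard

/-- the sequence `u_n = ∑_i w_i c_i(t) (ρ_i λ_i(t)) ^ n` -/
noncomputable def seq (c lam : Fin k → Polynomial ℂ) (t : ℂ) (w ρ : Fin k → ℂ) (n : ℤ) : ℂ :=
  ∑ i, w i * (c i).eval t * (ρ i * (lam i).eval t) ^ n

/-- `z` is a unit of the integral closure in `ℂ` of the ring generated by `Γ`. -/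
def IsUnitOver (Γ : Set ℂ) (z : ℂ) : Prop :=
  z ≠ 0 ∧ IsIntegral (Algebra.adjoin ℤ Γ) z ∧ IsIntegral (Algebra.adjoin ℤ Γ) z⁻¹

/-- `z = u s` with a unit `u` over `Γ` and an algebraic number `s ≠ 0` -/
def UnitTimes (Γ : Set ℂ) (s z : ℂ) : Prop :=
  IsAlgebraic ℚ s ∧ s ≠ 0 ∧ ∃ u, IsUnitOver Γ u ∧ z = u * s

/-- The `w_i` and `ρ_i` are products of units over `Γ` and of algebraic numbers the sum of the heights
of which is at most `H`. -/
def Small (Γ : Set ℂ) (H : ℝ) (w ρ : Fin k → ℂ) : Prop :=
  ∃ s q : Fin k → ℂ, (∀ i, UnitTimes Γ (s i) (w i)) ∧ (∀ i, UnitTimes Γ (q i) (ρ i)) ∧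
    ∑ i, ht (s i) + ∑ i, ht (q i) ≤ H

/-- The conclusion for the parameter `t`: all zeros of all the sequences are at indices with many
ties. -/
def Good (Γ : Set ℂ) (c lam : Fin k → Polynomial ℂ) (e f : Fin M → Fin k → ℤ) (d : ℕ) (t : ℂ)
    (H : ℝ) : Prop :=
  ∀ w ρ : Fin k → ℂ, Small Γ H w ρ → ∀ n : ℤ, seq c lam t w ρ n = 0 →
    M ≤ ties e f n + 2 * d ∧ (IsIntegral ℤ t → M + 1 ≤ ties e f n + 2 * d)

theorem ht_sg (y : Qbar) : ht (sg y) = h1 y := by
  unfold ht
  rw [Function.leftInverse_invFun sg_inj y]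

theorem ht_nonneg (z : ℂ) : 0 ≤ ht z := Pool.Agent.Y215.SK.h1_nonneg _

/-- the height in terms of Mathlib's height of the elements of number fields -/
theorem ht_field (L : Type) [Field L] [NumberField L] (φ : L →+* ℂ) (y : L) :
    ht (φ y) = Height.logHeight₁ y / Module.finrank ℚ L := by
  have halg : ∀ x : L, IsAlgebraic ℚ (φ x) := by
    intro x
    have h1 : IsAlgebraic ℚ x := Algebra.IsAlgebraic.isAlgebraic x
    exact h1.algHom φ.toRatAlgHom
  choose f hf using fun x => exists_sg (halg x)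
  let ψ : L →+* Qbar :=
    { toFun := f
      map_one' := sg_inj (by rw [hf, map_one, map_one])
      map_mul' := fun x y => sg_inj (by rw [hf, map_mul, map_mul, hf, hf])
      map_zero' := sg_inj (by rw [hf, map_zero, map_zero])
      map_add' := fun x y => sg_inj (by rw [hf, map_add, map_add, hf, hf]) }
  have h1 : φ y = sg (ψ y) := (hf y).symm
  rw [h1, ht_sg, Pool.Agent.Y215.SK.h1_eq L ψ y]

/-- Northcott's theorem -/
theorem northcott (K : IntermediateField ℚ ℂ) [FiniteDimensional ℚ K] (d : ℕ) (B : ℝ) :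
    {z | z ∈ DegLe K d ∧ ht z ≤ B}.Finite :=
  Pool.Agent.H594.WI.northcott_cx K d B

theorem isUnitOver_one (Γ : Set ℂ) : IsUnitOver Γ 1 :=
  ⟨one_ne_zero, isIntegral_one, by rw [inv_one]; exact isIntegral_one⟩

/-- **The Skolem Problem in families, with all multipliers of small height.** -/
theorem result {d : ℕ} (hk : 1 ≤ k) (hd : 1 ≤ d) (e f : Fin M → Fin k → ℤ)
    (hf : ∀ l, Function.Injective (f l)) (E : ℕ) (hE : ∀ l i j, |e l i - e l j| ≤ E) (κ : ℝ)
    (hκ : κ < 1 / (8 * (d + 1) * (E + 1))) (K : IntermediateField ℚ ℂ) [FiniteDimensional ℚ K]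
    (α : Fin M → ℂ) (hα : Function.Injective α) (hαalg : ∀ l, IsAlgebraic ℚ (α l))
    (c lam : Fin k → Polynomial ℂ) (hc : HasOrders α c e) (hlam : HasOrders α lam f) :
    -- (0) the height
    (∀ (L : Type) [Field L] [NumberField L] (φ : L →+* ℂ) (y : L),
      ht (φ y) = Height.logHeight₁ y / Module.finrank ℚ L) ∧
    -- (1) there are no ties at large indices
    (∀ n : ℤ, (E : ℤ) < |n| → ties e f n = 0) ∧
    -- (2) the zeros of the sequences of the family
    (∀ Γ : Set ℂ, Γ.Finite → (∀ z ∈ Γ, IsAlgebraic ℚ z) →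
      {t : ℂ | t ∈ DegLe K d ∧ ¬ Good Γ c lam e f d t (κ * ht t)}.Finite) ∧
    -- (3) integer sequences
    (∀ D : ℕ, {u : ℕ → ℤ | ∃ t ∈ DegLe K d, ∃ w ρ : Fin k → ℂ,
      (∀ i, w i ∈ DegLe K D ∧ w i ≠ 0 ∧ ρ i ∈ DegLe K D ∧ ρ i ≠ 0) ∧
      ∑ i, ht (w i) + ∑ i, ht (ρ i) ≤ κ * ht t ∧ (∀ n : ℕ, (u n : ℂ) = seq c lam t w ρ n) ∧
      ∃ n : ℕ, u n = 0 ∧ (ties e f n + 2 * d < M ∨
        (IsIntegral ℤ t ∧ ties e f n + 2 * d < M + 1))}.Finite) := by
  have hmain := fun Γ hΓ hΓalg => Pool.Agent.H594.SK.fam hk hd e f hf E hE κ hκ K α hα hαalg c lam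
    hc hlam Γ hΓ hΓalg
  have hpart2 : ∀ Γ : Set ℂ, Γ.Finite → (∀ z ∈ Γ, IsAlgebraic ℚ z) →
      {t : ℂ | t ∈ DegLe K d ∧ ¬ Good Γ c lam e f d t (κ * ht t)}.Finite := by
    intro Γ hΓ hΓalg
    refine (hmain Γ hΓ hΓalg).subset ?_
    rintro t ⟨htd, hno⟩
    refine ⟨htd, fun hall => hno ?_⟩
    rintro w ρ ⟨s, q, hs, hq, hsum⟩ n h0
    choose u hu hwu using fun i => (hs i).2.2
    choose v hv hρv using fun i => (hq i).2.2
    have hsum0 : ∑ i, (u i * s i) * (c i).eval t * ((v i * q i) * (lam i).eval t) ^ n = 0 := by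
      rw [← h0]
      refine Finset.sum_congr rfl fun i _ => ?_
      rw [hwu i, hρv i]
    have h2 := hall u s v q (fun i => ⟨hu i, (hs i).1, (hs i).2.1⟩)
      (fun i => ⟨hv i, (hq i).1, (hq i).2.1⟩) hsum n
    by_contra hcon
    refine h2 ?_ hsum0
    by_cases h3 : M ≤ ties e f n + 2 * d
    · right
      have h4 : ¬ (IsIntegral ℤ t → M + 1 ≤ ties e f n + 2 * d) := fun h4 => hcon ⟨h3, h4⟩
      rw [Classical.not_imp] at h4
      exact ⟨h4.1, lt_of_not_ge h4.2⟩
    · left
      exact lt_of_not_ge h3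
  refine ⟨ht_field, fun n hn => ?_, hpart2, fun D => ?_⟩
  · unfold ties
    rw [Set.ncard_eq_zero (Set.toFinite _), Set.eq_empty_iff_forall_notMem]
    exact fun l => Pool.Agent.H594.SK.no_tie (e l) (f l) (hf l) E (hE l) n hn
  · have hT := hpart2 ∅ Set.finite_empty (fun z hz => absurd hz (Set.notMem_empty z))
    obtain ⟨B, hB⟩ : ∃ B : ℝ, ∀ t ∈ {t : ℂ | t ∈ DegLe K d ∧
        ¬ Good ∅ c lam e f d t (κ * ht t)}, κ * ht t ≤ B := by
      obtain ⟨B, hB⟩ := (hT.image fun t => κ * ht t).bddAbove
      exact ⟨B, fun t ht' => hB ⟨t, ht', rfl⟩⟩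
    let F : ℂ × (Fin k → ℂ) × (Fin k → ℂ) → ℕ → ℂ := fun p n => seq c lam p.1 p.2.1 p.2.2 n
    have hS : ({t : ℂ | t ∈ DegLe K d ∧ ¬ Good ∅ c lam e f d t (κ * ht t)} ×ˢ
        ((Set.univ.pi fun _ : Fin k => {z | z ∈ DegLe K D ∧ ht z ≤ B}) ×ˢ
        (Set.univ.pi fun _ : Fin k => {z | z ∈ DegLe K D ∧ ht z ≤ B}))).Finite :=
      hT.prod ((Set.Finite.pi fun _ => northcott K D B).prod
        (Set.Finite.pi fun _ => northcott K D B))
    have hS2 := hS.image F
    refine Set.Finite.of_finite_image (f := fun (u : ℕ → ℤ) (n : ℕ) => (u n : ℂ)) (hS2.subset ?_) ?_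
    · rintro _ ⟨u, ⟨t, htd, w, ρ, hwρ, hsum, hu, n, hn0, hn⟩, rfl⟩
      have hbad : t ∈ {t : ℂ | t ∈ DegLe K d ∧ ¬ Good ∅ c lam e f d t (κ * ht t)} := by
        refine ⟨htd, fun hgood => ?_⟩
        have h5 := hgood w ρ ⟨w, ρ, fun i => ⟨degLe_alg (K := K) (d := D) (hwρ i).1, (hwρ i).2.1, 1,
          isUnitOver_one _, (one_mul _).symm⟩, fun i => ⟨degLe_alg (K := K) (d := D) (hwρ i).2.2.1,
          (hwρ i).2.2.2, 1, isUnitOver_one _, (one_mul _).symm⟩, hsum⟩ n (by
            rw [← hu n, hn0, Int.cast_zero])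
        rcases hn with h6 | ⟨h6, h7⟩
        · omega
        · have := h5.2 h6
          omega
      have hB' := hB t hbad
      refine ⟨(t, w, ρ), ⟨hbad, ?_, ?_⟩, ?_⟩
      · intro i _
        refine ⟨(hwρ i).1, ?_⟩
        have h5 : ht (w i) ≤ ∑ i, ht (w i) :=
          Finset.single_le_sum (f := fun i => ht (w i)) (fun _ _ => ht_nonneg _)
            (Finset.mem_univ i)
        have h6 : 0 ≤ ∑ i, ht (ρ i) := Finset.sum_nonneg fun _ _ => ht_nonneg _
        linarith
      · intro i _
        refine ⟨(hwρ i).2.2.1, ?_⟩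
        have h5 : ht (ρ i) ≤ ∑ i, ht (ρ i) :=
          Finset.single_le_sum (f := fun i => ht (ρ i)) (fun _ _ => ht_nonneg _)
            (Finset.mem_univ i)
        have h6 : 0 ≤ ∑ i, ht (w i) := Finset.sum_nonneg fun _ _ => ht_nonneg _
        linarith
      · funext n
        exact (hu n).symm
    · intro u _ u' _ h
      funext n
      have h1 : ((u n : ℤ) : ℂ) = ((u' n : ℤ) : ℂ) := congrFun h n
      exact_mod_cast h1

end Pool.Agent.Results.MP_8d13b5_lc.MultipliersOfSmallHeight
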